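import Pool.Agent.helper79.SX.Spec

/-!
# Project sx (MP_5628fe_nt): MON
-/

set_option autoImplicit false

open Finset ArithmeticFunction

namespace Pool.Agent.SX

theorem MON_g (D : Finset ℕ) : 0 ≤ g D :=
  Finset.prod_nonneg fun p _ => by positivity

theorem MON_V (h : ℕ) : 0 ≤ V (Pr h) := by
  refine Finset.prod_nonneg fun p hp => ?_
  have h7 : 7 ≤ p := by
    unfold Pr at hp
    exact (Finset.mem_filter.mp hp).2.2.1
  have h7' : (7 : ℝ) ≤ p := by exact_mod_cast h7
  have hp0 : (0 : ℝ) < p := by linarith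
  rw [sub_nonneg, div_le_one hp0]
  linarith

theorem MON_size {B B' : ℕ} (hB : B ≤ B') (X : ℝ) (D : Finset ℕ)
    (h : (2 : ℝ) ^ B' * (∏ p ∈ D, (p : ℝ)) ^ 10 ≤ X ^ 10) :
    (2 : ℝ) ^ B * (∏ p ∈ D, (p : ℝ)) ^ 10 ≤ X ^ 10 := by
  refine le_trans (mul_le_mul_of_nonneg_right (pow_le_pow_right₀ (by norm_num) hB) ?_) h
  exact pow_nonneg (Finset.prod_nonneg fun p _ => Nat.cast_nonneg p) 10

theorem MON : MON_stmt := by
  intro h _
  refine ⟨fun B B' v v' hB hv hU A X hA D hD hs => ?_, fun B B' v v' hB hv hL A X hA D hD hs => ?_,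
    fun B A X hA D hD hs => ?_⟩
  · refine le_trans (hU A X hA D hD (MON_size hB X D hs)) ?_
    refine mul_le_mul_of_nonneg_left (by linarith) ?_
    exact mul_nonneg (mul_nonneg hA.1.le (MON_g D)) (MON_V h)
  · refine le_trans ?_ (hL A X hA D hD (MON_size hB X D hs))
    refine mul_le_mul_of_nonneg_left (by linarith) ?_
    exact mul_nonneg (mul_nonneg hA.1.le (MON_g D)) (MON_V h)
  · rw [sub_self, mul_zero]
    exact Nat.cast_nonneg _

end Pool.Agent.SX
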