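import Pool.Agent.helper79.SX.Spec

/-!
# Project sx (MP_5628fe_nt): SQB
-/

set_option autoImplicit false

open Finset ArithmeticFunction

namespace Pool.Agent.SX

theorem SQB_cop {p : ℕ} (hp : p.Prime) (h7 : 7 ≤ p) : Nat.Coprime 30 (p ^ 2) := by
  refine Nat.Coprime.pow_right 2 (Nat.Coprime.symm ((Nat.Prime.coprime_iff_not_dvd hp).mpr ?_))
  intro h
  have h1 : p ∣ 5 * (3 * 2) := h
  rcases (Nat.Prime.dvd_mul hp).mp h1 with h2 | h2
  · have := Nat.le_of_dvd (by norm_num) h2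
    omega
  · have := Nat.le_of_dvd (by norm_num) h2
    omega

/-- one residue class -/
theorem SQB_one (n p v : ℕ) (hn : 2 ≤ n) (hp : p.Prime) :
    ((((Ioc (n ^ 3) (n ^ 3 + (3 * n ^ 2 + 3 * n - 6))).filter fun m =>
      m ≡ v [MOD 30 * p ^ 2]).card : ℕ) : ℝ) ≤ Xn n / (p : ℝ) ^ 2 + 1 := by
  have hp0 : 0 < p := hp.pos
  have hpR : (0 : ℝ) < p := by exact_mod_cast hp0
  have h := Pool.Agent.Lib.BrunHooley.card_modEq_approx (n ^ 3) (3 * n ^ 2 + 3 * n - 6)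
    (30 * p ^ 2) v (by positivity)
  have h6 : 6 ≤ 3 * n ^ 2 + 3 * n := by nlinarith
  have e : (((3 * n ^ 2 + 3 * n - 6 : ℕ) : ℝ)) / ((30 * p ^ 2 : ℕ) : ℝ) = Xn n / (p : ℝ) ^ 2 := by
    rw [Nat.cast_sub h6]
    unfold Xn
    push_cast
    rw [div_div]
  rw [e] at h
  linarith [(abs_le.mp h).2]

theorem SQB : SQB_stmt := by
  intro n p hn hp h7
  have hc := SQB_cop hp h7
  have hp49 : 49 ≤ p ^ 2 := by nlinarith
  obtain ⟨v1, hv1, hv1'⟩ := Nat.chineseRemainder hc 1 0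
  obtain ⟨v2, hv2, hv2'⟩ := Nat.chineseRemainder hc 1 (p ^ 2 - 6)
  have hsub : ((An n).filter fun m => p ^ 2 ∣ m ∨ p ^ 2 ∣ m + 6) ⊆
      ((Ioc (n ^ 3) (n ^ 3 + (3 * n ^ 2 + 3 * n - 6))).filter fun m =>
        m ≡ v1 [MOD 30 * p ^ 2]) ∪
      ((Ioc (n ^ 3) (n ^ 3 + (3 * n ^ 2 + 3 * n - 6))).filter fun m =>
        m ≡ v2 [MOD 30 * p ^ 2]) := by
    intro m hm
    obtain ⟨hmA, hm2⟩ := Finset.mem_filter.mp hm
    obtain ⟨hmI, hm30⟩ := Finset.mem_filter.mp hmA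
    have h30 : m ≡ 1 [MOD 30] := by
      unfold Nat.ModEq
      rw [hm30]
    rw [Finset.mem_union, Finset.mem_filter, Finset.mem_filter]
    rcases hm2 with h | h
    · left
      refine ⟨hmI, (Nat.modEq_and_modEq_iff_modEq_mul hc).mp ⟨h30.trans hv1.symm, ?_⟩⟩
      exact ((Nat.modEq_zero_iff_dvd).mpr h).trans hv1'.symm
    · right
      refine ⟨hmI, (Nat.modEq_and_modEq_iff_modEq_mul hc).mp ⟨h30.trans hv2.symm, ?_⟩⟩
      refine Nat.ModEq.trans ?_ hv2'.symm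
      have h1 : m + 6 ≡ (p ^ 2 - 6) + 6 [MOD p ^ 2] := by
        rw [Nat.sub_add_cancel (by omega)]
        refine ((Nat.modEq_zero_iff_dvd).mpr h).trans ?_
        exact ((Nat.modEq_zero_iff_dvd).mpr dvd_rfl).symm
      exact Nat.ModEq.add_right_cancel' 6 h1
  have h1 := SQB_one n p v1 hn hp
  have h2 := SQB_one n p v2 hn hp
  have h3 : ((((An n).filter fun m => p ^ 2 ∣ m ∨ p ^ 2 ∣ m + 6).card : ℕ) : ℝ) ≤
      ((((Ioc (n ^ 3) (n ^ 3 + (3 * n ^ 2 + 3 * n - 6))).filter fun m =>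
        m ≡ v1 [MOD 30 * p ^ 2]).card : ℕ) : ℝ) +
      ((((Ioc (n ^ 3) (n ^ 3 + (3 * n ^ 2 + 3 * n - 6))).filter fun m =>
        m ≡ v2 [MOD 30 * p ^ 2]).card : ℕ) : ℝ) := by
    exact_mod_cast (Finset.card_le_card hsub).trans (Finset.card_union_le _ _)
  linarith

end Pool.Agent.SX
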